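import Pool.Agent.Run7.h632.NEG.GAUSSb
import Pool.Agent.Run7.h35.NEG.Iface

/-!
# MP_6c92e3_an, piece GAUSS: tails of Gaussian quadratic forms
-/

set_option autoImplicit false

namespace Run7.h632.NEG

open MeasureTheory ProbabilityTheory Real Finset

theorem symm_pos {ι : Type} (p : ι → Prop) [DecidablePred p] (x1 : {i // p i} → ℝ)
    (x2 : {i // ¬ p i} → ℝ) (i : {i // p i}) :
    (MeasurableEquiv.piEquivPiSubtypeProd (fun _ : ι => ℝ) p).symm (x1, x2) (i : ι) = x1 i := by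
  show (if h : p i then x1 ⟨i, h⟩ else x2 ⟨i, h⟩) = x1 i
  rw [dif_pos i.2]

theorem symm_neg {ι : Type} (p : ι → Prop) [DecidablePred p] (x1 : {i // p i} → ℝ)
    (x2 : {i // ¬ p i} → ℝ) (i : {i // ¬ p i}) :
    (MeasurableEquiv.piEquivPiSubtypeProd (fun _ : ι => ℝ) p).symm (x1, x2) (i : ι) = x2 i := by
  show (if h : p i then x1 ⟨i, h⟩ else x2 ⟨i, h⟩) = x2 i
  rw [dif_neg i.2]

/-- lower exponential moment, only the coordinates in `O` are used -/
theorem mom_lower_p {ι κ : Type} [Fintype ι] [DecidableEq ι] [Fintype κ] (L : κ → ι → ℝ)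
    (p : ι → Prop) [DecidablePred p] (Λ s : ℝ) (hs : 0 ≤ s)
    (hΛ : ∀ x : ι → ℝ, (∀ i, ¬ p i → x i = 0) →
      ∑ e, (∑ i, L e i * x i) ^ 2 ≤ Λ * ∑ i, x i ^ 2) :
    ∫ x, Real.exp (-(s * ∑ e, (∑ i, L e i * x i) ^ 2)) ∂(Measure.pi fun _ : ι => γ) ≤
      Real.exp (-(s * (1 - s * Λ) * ∑ e, ∑ i : {i // p i}, L e i ^ 2)) := by
  have hmp := measurePreserving_piEquivPiSubtypeProd (fun _ : ι => γ) p
  set E := MeasurableEquiv.piEquivPiSubtypeProd (fun _ : ι => ℝ) p with hE
  set F : (ι → ℝ) → ℝ := fun x => Real.exp (-(s * ∑ e, (∑ i, L e i * x i) ^ 2)) with hF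
  have hFc : Continuous F := by fun_prop
  have hsum : ∀ (x1 : {i // p i} → ℝ) (x2 : {i // ¬ p i} → ℝ) (e : κ),
      ∑ i, L e i * (E.symm (x1, x2)) i =
        ∑ i : {i // p i}, L e i * x1 i + ∑ i : {i // ¬ p i}, L e i * x2 i := by
    intro x1 x2 e
    rw [← Fintype.sum_subtype_add_sum_subtype p]
    simp only [hE, symm_pos, symm_neg]
  have h1 : ∫ x, F x ∂(Measure.pi fun _ : ι => γ) =
      ∫ z, F (E.symm z) ∂((Measure.pi fun _ : {i // p i} => γ).prod
        (Measure.pi fun _ : {i // ¬ p i} => γ)) := by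
    rw [← hmp.map_eq, integral_map_equiv]
    simp
  have hFE : Integrable (fun z => F (E.symm z)) ((Measure.pi fun _ : {i // p i} => γ).prod
        (Measure.pi fun _ : {i // ¬ p i} => γ)) := by
    refine Integrable.of_bound (hFc.measurable.comp E.symm.measurable).aestronglyMeasurable 1
      (Filter.Eventually.of_forall fun x => ?_)
    rw [Real.norm_eq_abs, abs_of_nonneg (Real.exp_pos _).le, Real.exp_le_one_iff, neg_nonpos]
    exact mul_nonneg hs (Finset.sum_nonneg fun _ _ => sq_nonneg _)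
  rw [h1, integral_prod_symm _ hFE]
  have h2 : ∀ x2 : {i // ¬ p i} → ℝ, ∫ x1, F (E.symm (x1, x2)) ∂(Measure.pi fun _ : {i // p i} => γ)
      ≤ Real.exp (-(s * (1 - s * Λ) * ∑ e, ∑ i : {i // p i}, L e i ^ 2)) := by
    intro x2
    simp only [hF, hsum]
    refine mom_lower (fun e (i : {i // p i}) => L e i)
      (fun e => ∑ i : {i // ¬ p i}, L e i * x2 i) Λ s hs ?_
    intro x1
    have h3 := hΛ (E.symm (x1, 0)) (fun i hi => by
      have := symm_neg p x1 0 ⟨i, hi⟩
      exact this)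
    simp only [hsum] at h3
    have h4 : ∑ i, (E.symm (x1, 0)) i ^ 2 = ∑ i, x1 i ^ 2 := by
      rw [← Fintype.sum_subtype_add_sum_subtype p]
      simp only [hE, symm_pos, symm_neg]
      simp
    rw [h4] at h3
    refine le_trans (le_of_eq ?_) h3
    refine Finset.sum_congr rfl fun e _ => ?_
    simp
  refine (integral_mono_of_nonneg (Filter.Eventually.of_forall fun x2 =>
    integral_nonneg fun _ => (Real.exp_pos _).le) (integrable_const _)
    (Filter.Eventually.of_forall h2)).trans (le_of_eq ?_)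
  simp

theorem mom_lower_O {ι κ : Type} [Fintype ι] [DecidableEq ι] [Fintype κ] (L : κ → ι → ℝ)
    (O : Finset ι) (Λ s : ℝ) (hs : 0 ≤ s)
    (hΛ : ∀ x : ι → ℝ, (∀ i, i ∉ O → x i = 0) →
      ∑ e, (∑ i, L e i * x i) ^ 2 ≤ Λ * ∑ i, x i ^ 2) :
    ∫ x, Real.exp (-(s * ∑ e, (∑ i, L e i * x i) ^ 2)) ∂(Measure.pi fun _ : ι => γ) ≤
      Real.exp (-(s * (1 - s * Λ) * ∑ e, ∑ i ∈ O, L e i ^ 2)) := by
  refine (mom_lower_p L (fun i => i ∈ O) Λ s hs hΛ).trans (le_of_eq ?_)
  congr 3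
  refine Finset.sum_congr rfl fun e _ => ?_
  exact (Finset.sum_subtype O (fun i => Iff.rfl) (fun i => L e i ^ 2)).symm

theorem gauss : Run7.h35.NEG.S_GAUSS := by
  intro ι κ _ _ _ L O τ Λ ε hΛ0 hε hε1 hΛ
  constructor
  · intro hτ
    set s : ℝ := ε / (2 * Λ) with hs
    have hs0 : 0 < s := by positivity
    have hsΛ : s * Λ = ε / 2 := by rw [hs]; field_simp
    set Q : (ι → ℝ) → ℝ := fun x => ∑ e, (∑ i, L e i * x i) ^ 2 with hQ
    have hint : Integrable (fun x => Real.exp (-(s * Q x))) (Measure.pi fun _ : ι => γ) := by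
      refine int_cont _ (by fun_prop) (fun x => by positivity) (fun x => ?_)
      rw [Real.exp_le_one_iff, neg_nonpos]
      exact mul_nonneg hs0.le (Finset.sum_nonneg fun _ _ => sq_nonneg _)
    have h1 := mul_meas_ge_le_integral_of_nonneg
      (Filter.Eventually.of_forall fun x => (Real.exp_pos (-(s * Q x))).le) hint
      (Real.exp (-(s * ((1 - ε) * τ))))
    have h2 : {x | Real.exp (-(s * ((1 - ε) * τ))) ≤ Real.exp (-(s * Q x))} =
        {x | Q x ≤ (1 - ε) * τ} := by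
      ext x
      simp only [Set.mem_ofPred_eq, Real.exp_le_exp, neg_le_neg_iff]
      exact mul_le_mul_iff_right₀ hs0
    rw [h2] at h1
    have h3 := mom_lower_O L O Λ s hs0.le hΛ
    have h4 : Real.exp (-(s * (1 - s * Λ) * ∑ e, ∑ i ∈ O, L e i ^ 2)) ≤
        Real.exp (-(s * (1 - ε / 2) * τ)) := by
      rw [Real.exp_le_exp, neg_le_neg_iff, hsΛ]
      exact mul_le_mul_of_nonneg_left hτ (mul_nonneg hs0.le (by linarith))
    have h5 : Real.exp (-(s * ((1 - ε) * τ))) *
        (Measure.pi fun _ : ι => γ).real {x | Q x ≤ (1 - ε) * τ} ≤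
        Real.exp (-(s * (1 - ε / 2) * τ)) := h1.trans (h3.trans h4)
    have h6 : (Measure.pi fun _ : ι => γ).real {x | Q x ≤ (1 - ε) * τ} =
        Real.exp (s * ((1 - ε) * τ)) * (Real.exp (-(s * ((1 - ε) * τ))) *
          (Measure.pi fun _ : ι => γ).real {x | Q x ≤ (1 - ε) * τ}) := by
      rw [← mul_assoc, ← Real.exp_add]
      simp
    calc (Measure.pi fun _ : ι => γ).real {x | Q x ≤ (1 - ε) * τ} =
        Real.exp (s * ((1 - ε) * τ)) * (Real.exp (-(s * ((1 - ε) * τ))) *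
          (Measure.pi fun _ : ι => γ).real {x | Q x ≤ (1 - ε) * τ}) := h6
      _ ≤ Real.exp (s * ((1 - ε) * τ)) * Real.exp (-(s * (1 - ε / 2) * τ)) :=
          mul_le_mul_of_nonneg_left h5 (Real.exp_pos _).le
      _ = Real.exp (-(ε ^ 2 * τ / (4 * Λ))) := by
          rw [← Real.exp_add]
          congr 1
          rw [hs]
          field_simp
          ring
  · intro hO hτ
    subst hO
    set s : ℝ := ε / (4 * Λ) with hs
    have hs0 : 0 < s := by positivity
    have hsΛ : s * Λ = ε / 4 := by rw [hs]; field_simp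
    set Q : (ι → ℝ) → ℝ := fun x => ∑ e, (∑ i, L e i * x i) ^ 2 with hQ
    obtain ⟨hint, h3⟩ := mom_upper L Λ s hs0.le (by rw [hsΛ]; linarith)
      (fun x => hΛ x (fun i hi => absurd (Finset.mem_univ i) hi))
    have h1 := mul_meas_ge_le_integral_of_nonneg
      (Filter.Eventually.of_forall fun x => (Real.exp_pos (s * Q x)).le) hint
      (Real.exp (s * ((1 + ε) * τ)))
    have h2 : {x | Real.exp (s * ((1 + ε) * τ)) ≤ Real.exp (s * Q x)} =
        {x | (1 + ε) * τ ≤ Q x} := by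
      ext x
      simp only [Set.mem_ofPred_eq, Real.exp_le_exp]
      exact mul_le_mul_iff_right₀ hs0
    rw [h2] at h1
    have h4 : Real.exp (s * (1 + 2 * s * Λ) * ∑ e, ∑ i, L e i ^ 2) ≤
        Real.exp (s * (1 + ε / 2) * τ) := by
      rw [Real.exp_le_exp, mul_assoc 2 s Λ, hsΛ]
      have : 1 + 2 * (ε / 4) = 1 + ε / 2 := by ring
      rw [this]
      exact mul_le_mul_of_nonneg_left hτ (mul_nonneg hs0.le (by linarith))
    have h5 : Real.exp (s * ((1 + ε) * τ)) *
        (Measure.pi fun _ : ι => γ).real {x | (1 + ε) * τ ≤ Q x} ≤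
        Real.exp (s * (1 + ε / 2) * τ) := h1.trans (h3.trans h4)
    have h6 : (Measure.pi fun _ : ι => γ).real {x | (1 + ε) * τ ≤ Q x} =
        Real.exp (-(s * ((1 + ε) * τ))) * (Real.exp (s * ((1 + ε) * τ)) *
          (Measure.pi fun _ : ι => γ).real {x | (1 + ε) * τ ≤ Q x}) := by
      rw [← mul_assoc, ← Real.exp_add]
      simp
    calc (Measure.pi fun _ : ι => γ).real {x | (1 + ε) * τ ≤ Q x} =
        Real.exp (-(s * ((1 + ε) * τ))) * (Real.exp (s * ((1 + ε) * τ)) *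
          (Measure.pi fun _ : ι => γ).real {x | (1 + ε) * τ ≤ Q x}) := h6
      _ ≤ Real.exp (-(s * ((1 + ε) * τ))) * Real.exp (s * (1 + ε / 2) * τ) :=
          mul_le_mul_of_nonneg_left h5 (Real.exp_pos _).le
      _ = Real.exp (-(ε ^ 2 * τ / (8 * Λ))) := by
          rw [← Real.exp_add]
          congr 1
          rw [hs]
          field_simp
          ring

/-- the piece GAUSS -/
theorem GAUSS.main : Run7.h35.NEG.S_GAUSS := gauss

end Run7.h632.NEG
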