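import Pool.Agent.Run7.h632.NEG.LEAK
import Pool.Agent.Run7.h973.NEG.DIAGOFF
import Pool.Agent.Run7.h973.NEG.RIGID

/-!
# MP_6c92e3_an, piece RM: the assembly
-/

set_option autoImplicit false

namespace Run7.h632.NEG.RM

open Run7.h35.NEG

/-- RM -/
theorem main : S_RM :=
  rm_of Run7.h973.NEG.diagoff LEAK.main (Run7.h973.NEG.rigid codes)

end Run7.h632.NEG.RM
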