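import Mathlib

/-!
# MP_6c92e3_an, piece GAUSS, part a: one-dimensional Gaussian integrals and the rotation
-/

set_option autoImplicit false

namespace Run7.h632.NEG

open MeasureTheory ProbabilityTheory Real Finset

/-- the standard Gaussian measure on the line -/
noncomputable abbrev γ : Measure ℝ := gaussianReal 0 1

theorem integral_γ (f : ℝ → ℝ) : ∫ y, f y ∂γ = ∫ y, (Real.sqrt (2 * π))⁻¹ * Real.exp (-(y ^ 2) / 2) * f y := by
  rw [integral_gaussianReal_eq_integral_smul (by norm_num)]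
  refine integral_congr_ae (Filter.Eventually.of_forall fun y => ?_)
  simp only [gaussianPDFReal, smul_eq_mul, sub_zero, NNReal.coe_one, mul_one]

theorem inv_sqrt_le {u : ℝ} (hu : 0 ≤ u) : (Real.sqrt (1 + u))⁻¹ ≤ Real.exp (-(u / 2) + u ^ 2 / 4) := by
  have h1 : u - u ^ 2 / 2 ≤ Real.log (1 + u) := by
    have h2 : ∀ x : ℝ, 0 ≤ x → x - x ^ 2 / 2 ≤ Real.log (1 + x) := by
      intro x hx
      have := Real.le_log_one_add_of_nonneg hx
      refine le_trans ?_ this
      rw [le_div_iff₀ (by linarith)]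
      nlinarith [pow_nonneg hx 3]
    exact h2 u hu
  have h3 : 0 < 1 + u := by linarith
  rw [← Real.exp_log (inv_pos.2 (Real.sqrt_pos.2 h3)), Real.log_inv, Real.log_sqrt h3.le]
  exact Real.exp_le_exp.2 (by linarith)

/-- lower: `E exp(-s (σ y + c)²) ≤ exp(-s σ² + s² σ⁴)` -/
theorem gauss_lower (s σ c : ℝ) (hs : 0 ≤ s) :
    ∫ y, Real.exp (-(s * (σ * y + c) ^ 2)) ∂γ ≤ Real.exp (-(s * σ ^ 2) + s ^ 2 * σ ^ 4) := by
  set A : ℝ := s * σ ^ 2 + 1 / 2 with hA
  have hA0 : 0 < A := by positivity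
  rw [integral_γ]
  have key : ∀ y : ℝ, (Real.sqrt (2 * π))⁻¹ * Real.exp (-(y ^ 2) / 2) *
      Real.exp (-(s * (σ * y + c) ^ 2)) ≤
      (Real.sqrt (2 * π))⁻¹ * Real.exp (-A * (y + s * σ * c / A) ^ 2) := by
    intro y
    rw [mul_assoc, ← Real.exp_add]
    refine mul_le_mul_of_nonneg_left (Real.exp_le_exp.2 ?_) (by positivity)
    have e : A * (y + s * σ * c / A) ^ 2 = A * y ^ 2 + 2 * s * σ * c * y + (s * σ * c) ^ 2 / A := by
      field_simp
      ring
    have h1 : (s * σ * c) ^ 2 / A ≤ s * c ^ 2 := by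
      rw [div_le_iff₀ hA0]
      have : 0 ≤ s * c ^ 2 := by positivity
      rw [hA]
      nlinarith
    nlinarith
  have hint : Integrable (fun y : ℝ => (Real.sqrt (2 * π))⁻¹ *
      Real.exp (-A * (y + s * σ * c / A) ^ 2)) :=
    ((integrable_exp_neg_mul_sq hA0).comp_add_right (s * σ * c / A)).const_mul _
  refine (integral_mono_of_nonneg (Filter.Eventually.of_forall fun y => by positivity) hint
    (Filter.Eventually.of_forall key)).trans ?_
  rw [integral_const_mul, integral_add_right_eq_self (fun y : ℝ => Real.exp (-A * y ^ 2)),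
    integral_gaussian]
  have e2 : (Real.sqrt (2 * π))⁻¹ * Real.sqrt (π / A) = (Real.sqrt (1 + 2 * s * σ ^ 2))⁻¹ := by
    rw [← Real.sqrt_inv, ← Real.sqrt_inv, ← Real.sqrt_mul (by positivity)]
    congr 1
    rw [hA]
    have := Real.pi_pos
    field_simp
    ring
  rw [e2]
  refine (inv_sqrt_le (u := 2 * s * σ ^ 2) (by positivity)).trans (Real.exp_le_exp.2 ?_)
  nlinarith

theorem log_lower {u : ℝ} (h0 : 0 ≤ u) (h1 : u ≤ 1 / 2) : -u - u ^ 2 ≤ Real.log (1 - u) := by
  have key : MonotoneOn (fun x : ℝ => Real.log (1 - x) + x + x ^ 2) (Set.Icc 0 (1 / 2)) := by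
    refine monotoneOn_of_deriv_nonneg (convex_Icc _ _) ?_ ?_ ?_
    · refine ContinuousOn.add (ContinuousOn.add ?_ continuousOn_id) (continuousOn_pow 2)
      refine ContinuousOn.log (by fun_prop) ?_
      intro x hx
      have := hx.2
      have : (0 : ℝ) < 1 - x := by linarith
      exact this.ne'
    · intro x hx
      rw [interior_Icc] at hx
      have h2 : (1 - x) ≠ 0 := by have := hx.2; intro h; linarith
      have : DifferentiableAt ℝ (fun x : ℝ => Real.log (1 - x) + x + x ^ 2) x := by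
        fun_prop (disch := assumption)
      exact this.differentiableWithinAt
    · intro x hx
      rw [interior_Icc] at hx
      have h2 : (0 : ℝ) < 1 - x := by have := hx.2; linarith
      have h3 : HasDerivAt (fun x : ℝ => Real.log (1 - x) + x + x ^ 2)
          ((-1) / (1 - x) + 1 + 2 * x) x := by
        have d1 : HasDerivAt (fun x : ℝ => 1 - x) (-1) x := by
          simpa using (hasDerivAt_id x).const_sub 1
        have d2 := d1.log h2.ne'
        have d3 : HasDerivAt (fun x : ℝ => Real.log (1 - x) + x + x ^ 2)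
            ((-1) / (1 - x) + 1 + ((2 : ℕ) : ℝ) * x ^ (2 - 1)) x :=
          (d2.add (hasDerivAt_id x)).add (hasDerivAt_pow 2 x)
        exact d3.congr_deriv (by norm_num)
      rw [h3.deriv]
      have : (-1) / (1 - x) + 1 + 2 * x = x * (1 - 2 * x) / (1 - x) := by
        field_simp
        ring
      rw [this]
      have := hx.1
      have := hx.2
      exact div_nonneg (mul_nonneg (by linarith) (by linarith)) h2.le
  have := key (Set.left_mem_Icc.2 (by norm_num)) (⟨h0, h1⟩ : u ∈ Set.Icc 0 (1 / 2)) h0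
  simp at this
  linarith

theorem inv_sqrt_le' {u : ℝ} (h0 : 0 ≤ u) (h1 : u ≤ 1 / 2) :
    (Real.sqrt (1 - u))⁻¹ ≤ Real.exp (u / 2 + u ^ 2 / 2) := by
  have h2 := log_lower h0 h1
  have h3 : 0 < 1 - u := by linarith
  rw [← Real.exp_log (inv_pos.2 (Real.sqrt_pos.2 h3)), Real.log_inv, Real.log_sqrt h3.le]
  exact Real.exp_le_exp.2 (by linarith)

/-- upper: `E exp(t y²) ≤ exp(t + 2 t²)` for `0 ≤ t ≤ 1/4` -/
theorem gauss_upper (t : ℝ) (h0 : 0 ≤ t) (h1 : t ≤ 1 / 4) :
    Integrable (fun y => Real.exp (t * y ^ 2)) γ ∧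
    ∫ y, Real.exp (t * y ^ 2) ∂γ ≤ Real.exp (t + 2 * t ^ 2) := by
  have hA0 : 0 < 1 / 2 - t := by linarith
  have e : ∀ y : ℝ, (Real.sqrt (2 * π))⁻¹ * Real.exp (-(y ^ 2) / 2) * Real.exp (t * y ^ 2) =
      (Real.sqrt (2 * π))⁻¹ * Real.exp (-(1 / 2 - t) * y ^ 2) := by
    intro y
    rw [mul_assoc, ← Real.exp_add]
    congr 2
    ring
  constructor
  · show Integrable (fun y => Real.exp (t * y ^ 2)) (gaussianReal 0 1)
    rw [gaussianReal_of_var_ne_zero _ (by norm_num), integrable_withDensity_iff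
      (measurable_gaussianPDF 0 1) (Filter.Eventually.of_forall fun x => gaussianPDF_lt_top)]
    have : (fun x => Real.exp (t * x ^ 2) * (gaussianPDF 0 1 x).toReal) =
        fun y => (Real.sqrt (2 * π))⁻¹ * Real.exp (-(1 / 2 - t) * y ^ 2) := by
      ext y
      rw [← e y]
      simp only [toReal_gaussianPDF, gaussianPDFReal, sub_zero, NNReal.coe_one, mul_one]
      ring
    rw [this]
    exact (integrable_exp_neg_mul_sq hA0).const_mul _
  · rw [integral_γ]
    simp only [e]
    rw [integral_const_mul, integral_gaussian]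
    have e2 : (Real.sqrt (2 * π))⁻¹ * Real.sqrt (π / (1 / 2 - t)) =
        (Real.sqrt (1 - 2 * t))⁻¹ := by
      rw [← Real.sqrt_inv, ← Real.sqrt_inv, ← Real.sqrt_mul (by positivity)]
      congr 1
      have := Real.pi_pos
      have : (1 - 2 * t) ≠ 0 := by intro h; linarith
      field_simp
    rw [e2]
    refine (inv_sqrt_le' (u := 2 * t) (by linarith) (by linarith)).trans (Real.exp_le_exp.2 ?_)
    nlinarith

/-- rotation invariance -/
theorem rot {ι : Type*} [Fintype ι] (b : OrthonormalBasis ι ℝ (EuclideanSpace ℝ ι))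
    (F : (ι → ℝ) → ℝ) (hF : Continuous F) :
    ∫ x, F x ∂(Measure.pi fun _ : ι => γ) =
      ∫ y, F (fun j => ∑ i, y i * b i j) ∂(Measure.pi fun _ : ι => γ) := by
  have h1 : ∫ z, F (WithLp.ofLp z) ∂(stdGaussian (EuclideanSpace ℝ ι)) =
      ∫ x, F x ∂(Measure.pi fun _ : ι => γ) := by
    rw [← map_pi_eq_stdGaussian, integral_map]
    · exact (PiLp.continuous_toLp 2 _).measurable.aemeasurable
    · exact (hF.comp (PiLp.continuous_ofLp 2 _)).aestronglyMeasurable
  rw [← h1, stdGaussian_eq_map_pi_orthonormalBasis b, integral_map]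
  · refine integral_congr_ae (Filter.Eventually.of_forall fun y => ?_)
    simp only
    congr 1
    ext j
    simp [Finset.sum_apply]
  · exact Measurable.aemeasurable (by fun_prop)
  · exact (hF.comp (PiLp.continuous_ofLp 2 _)).aestronglyMeasurable

end Run7.h632.NEG
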