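import Pool.Agent.Run7.h632.NEG.GAUSSa

/-!
# MP_6c92e3_an, piece GAUSS, part b: exponential moments of quadratic forms
-/

set_option autoImplicit false

namespace Run7.h632.NEG

open MeasureTheory ProbabilityTheory Real Finset

/-- diagonalization of a linear map -/
theorem diag {ι κ : Type*} [Fintype ι] [DecidableEq ι] [Fintype κ] (L : κ → ι → ℝ) (Λ : ℝ)
    (hΛ : ∀ x : ι → ℝ, ∑ e, (∑ i, L e i * x i) ^ 2 ≤ Λ * ∑ i, x i ^ 2) :
    ∃ (b : OrthonormalBasis ι ℝ (EuclideanSpace ℝ ι)) (lam : ι → ℝ),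
      (∀ i, 0 ≤ lam i) ∧ (∀ i, lam i ≤ Λ) ∧ (∑ i, lam i = ∑ e, ∑ i, L e i ^ 2) ∧
      ∀ i j, ∑ e, (∑ k, L e k * b i k) * (∑ k, L e k * b j k) = if i = j then lam i else 0 := by
  classical
  set A : Matrix ι ι ℝ := fun k l => ∑ e, L e k * L e l with hA
  have hAH : A.IsHermitian := by
    ext k l
    simp only [Matrix.conjTranspose_apply, hA, star_trivial]
    exact Finset.sum_congr rfl fun e _ => mul_comm _ _
  set b := hAH.eigenvectorBasis with hb
  set lam := hAH.eigenvalues with hlam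
  have hon : ∀ i j, ∑ k, b i k * b j k = if i = j then 1 else 0 := by
    intro i j
    have h1 := orthonormal_iff_ite.1 b.orthonormal j i
    rw [PiLp.inner_apply] at h1
    simp only [RCLike.inner_apply, conj_trivial] at h1
    rw [h1]
    by_cases h : i = j
    · simp [h]
    · rw [if_neg h, if_neg (fun h' => h h'.symm)]
  have heig : ∀ i k, ∑ l, A k l * b i l = lam i * b i k := by
    intro i k
    have h1 := hAH.mulVec_eigenvectorBasis i
    have h2 := congrFun h1 k
    simp only [Matrix.mulVec, dotProduct, Pi.smul_apply, smul_eq_mul] at h2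
    exact h2
  have hT : ∀ i j, ∑ e, (∑ k, L e k * b i k) * (∑ k, L e k * b j k) =
      if i = j then lam i else 0 := by
    intro i j
    have h1 : ∑ e, (∑ k, L e k * b i k) * (∑ k, L e k * b j k) =
        ∑ k, (∑ l, A k l * b i l) * b j k := by
      simp only [hA, Finset.sum_mul, Finset.mul_sum]
      rw [Finset.sum_comm]
      refine Finset.sum_congr rfl fun y _ => ?_
      rw [Finset.sum_comm]
      exact Finset.sum_congr rfl fun k _ => Finset.sum_congr rfl fun e _ => by ring
    rw [h1]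
    simp only [heig]
    have h2 : ∑ x, lam i * b i x * b j x = lam i * ∑ x, b i x * b j x := by
      rw [Finset.mul_sum]
      exact Finset.sum_congr rfl fun _ _ => by ring
    rw [h2, hon]
    split_ifs <;> simp
  refine ⟨b, lam, ?_, ?_, ?_, hT⟩
  · intro i
    have h1 := hT i i
    rw [if_pos rfl] at h1
    rw [← h1]
    exact Finset.sum_nonneg fun e _ => mul_self_nonneg _
  · intro i
    have h1 := hT i i
    rw [if_pos rfl] at h1
    have h2 := hΛ (fun k => b i k)
    have h3 : ∑ k, b i k ^ 2 = 1 := by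
      have := hon i i
      rw [if_pos rfl] at this
      rw [← this]
      exact Finset.sum_congr rfl fun _ _ => sq _
    rw [h3, mul_one] at h2
    rw [← h1]
    refine le_trans (le_of_eq ?_) h2
    exact Finset.sum_congr rfl fun _ _ => (sq _).symm
  · have h1 : ∀ i, lam i = ∑ e, (∑ k, L e k * b i k) ^ 2 := by
      intro i
      have h1 := hT i i
      rw [if_pos rfl] at h1
      rw [← h1]
      exact Finset.sum_congr rfl fun _ _ => (sq _).symm
    simp only [h1]
    rw [Finset.sum_comm]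
    refine Finset.sum_congr rfl fun e _ => ?_
    have h2 := b.sum_sq_inner_right (WithLp.toLp 2 (L e))
    rw [EuclideanSpace.norm_sq_eq] at h2
    simp only [PiLp.inner_apply, RCLike.inner_apply, conj_trivial, Real.norm_eq_abs, sq_abs] at h2
    rw [← h2]

theorem rot_mp {ι : Type*} [Fintype ι] (b : OrthonormalBasis ι ℝ (EuclideanSpace ℝ ι)) :
    MeasurePreserving (fun y : ι → ℝ => fun j => ∑ i, y i * b i j)
      (Measure.pi fun _ : ι => γ) (Measure.pi fun _ : ι => γ) := by
  refine ⟨by fun_prop, ?_⟩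
  have h1 : (Measure.pi fun _ : ι => γ).map (WithLp.toLp 2) =
      (Measure.pi fun _ : ι => γ).map (fun x : ι → ℝ => ∑ i, x i • b i) := by
    rw [← stdGaussian_eq_map_pi_orthonormalBasis b, map_pi_eq_stdGaussian]
  have h2 := congrArg (Measure.map (WithLp.ofLp (p := 2) (V := ι → ℝ))) h1
  rw [Measure.map_map (PiLp.continuous_ofLp 2 _).measurable (PiLp.continuous_toLp 2 _).measurable,
    Measure.map_map (PiLp.continuous_ofLp 2 _).measurable (by fun_prop)] at h2
  have e1 : (WithLp.ofLp (p := 2) (V := ι → ℝ)) ∘ (WithLp.toLp 2) = id := rfl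
  have e2 : (WithLp.ofLp (p := 2) (V := ι → ℝ)) ∘ (fun x : ι → ℝ => ∑ i, x i • b i) =
      fun y : ι → ℝ => fun j => ∑ i, y i * b i j := by
    ext y j
    simp [Finset.sum_apply]
  rw [e1, e2, Measure.map_id] at h2
  exact h2.symm

theorem int_cont {ι : Type*} [Fintype ι] (F : (ι → ℝ) → ℝ) (hF : Continuous F)
    (h1 : ∀ x, 0 ≤ F x) (h2 : ∀ x, F x ≤ 1) : Integrable F (Measure.pi fun _ : ι => γ) := by
  refine Integrable.of_bound hF.aestronglyMeasurable 1 (Filter.Eventually.of_forall fun x => ?_)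
  rw [Real.norm_eq_abs, abs_of_nonneg (h1 x)]
  exact h2 x

/-- lower exponential moment with a shift -/
theorem mom_lower {ι κ : Type*} [Fintype ι] [DecidableEq ι] [Fintype κ] (L : κ → ι → ℝ)
    (w : κ → ℝ) (Λ s : ℝ) (hs : 0 ≤ s)
    (hΛ : ∀ x : ι → ℝ, ∑ e, (∑ i, L e i * x i) ^ 2 ≤ Λ * ∑ i, x i ^ 2) :
    ∫ x, Real.exp (-(s * ∑ e, (∑ i, L e i * x i + w e) ^ 2)) ∂(Measure.pi fun _ : ι => γ) ≤
      Real.exp (-(s * (1 - s * Λ) * ∑ e, ∑ i, L e i ^ 2)) := by
  obtain ⟨b, lam, hl0, hlΛ, hsum, hT⟩ := diag L Λ hΛ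
  set f : ι → κ → ℝ := fun i e => (∑ k, L e k * b i k) / Real.sqrt (lam i) with hf
  set c : ι → ℝ := fun i => ∑ e, f i e * w e with hc
  have hff : ∀ i j, ∑ e, f i e * f j e = if i = j ∧ lam i ≠ 0 then 1 else 0 := by
    intro i j
    have : ∑ e, f i e * f j e =
        (∑ e, (∑ k, L e k * b i k) * (∑ k, L e k * b j k)) / (Real.sqrt (lam i) * Real.sqrt (lam j)) := by
      rw [Finset.sum_div]
      refine Finset.sum_congr rfl fun e _ => ?_
      simp only [hf]
      rw [div_mul_div_comm]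
    rw [this, hT]
    by_cases hij : i = j
    · subst hij
      by_cases h0 : lam i = 0
      · simp [h0]
      · rw [if_pos rfl, if_pos ⟨rfl, h0⟩, Real.mul_self_sqrt (hl0 i), div_self h0]
    · simp [hij]
  have bessel : ∀ v : κ → ℝ, ∑ i, (∑ e, f i e * v e) ^ 2 ≤ ∑ e, v e ^ 2 := by
    intro v
    set a : ι → ℝ := fun i => ∑ e, f i e * v e with ha
    have h1 : 0 ≤ ∑ e, (v e - ∑ i, a i * f i e) ^ 2 := Finset.sum_nonneg fun _ _ => sq_nonneg _
    have h2 : ∑ e, (v e - ∑ i, a i * f i e) ^ 2 =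
        ∑ e, v e ^ 2 - 2 * ∑ i, a i ^ 2 + ∑ i, ∑ j, a i * a j * ∑ e, f i e * f j e := by
      have e1 : ∀ e, (v e - ∑ i, a i * f i e) ^ 2 =
          v e ^ 2 - 2 * ∑ i, a i * (f i e * v e) + ∑ i, ∑ j, a i * a j * (f i e * f j e) := by
        intro e
        have k1 : v e * ∑ i, a i * f i e = ∑ i, a i * (f i e * v e) := by
          rw [Finset.mul_sum]
          exact Finset.sum_congr rfl fun _ _ => by ring
        have k2 : (∑ i, a i * f i e) ^ 2 = ∑ i, ∑ j, a i * a j * (f i e * f j e) := by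
          rw [sq, Finset.sum_mul_sum]
          exact Finset.sum_congr rfl fun _ _ => Finset.sum_congr rfl fun _ _ => by ring
        rw [← k1, ← k2]
        ring
      simp only [e1]
      rw [Finset.sum_add_distrib, Finset.sum_sub_distrib, ← Finset.mul_sum]
      congr 1
      · congr 2
        rw [Finset.sum_comm]
        refine Finset.sum_congr rfl fun i _ => ?_
        rw [← Finset.mul_sum]
        simp only [ha]
        rw [sq]
      · rw [Finset.sum_comm]
        refine Finset.sum_congr rfl fun i _ => ?_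
        rw [Finset.sum_comm]
        refine Finset.sum_congr rfl fun j _ => ?_
        rw [← Finset.mul_sum]
    have h3 : ∑ i, ∑ j, a i * a j * ∑ e, f i e * f j e ≤ ∑ i, a i ^ 2 := by
      refine Finset.sum_le_sum fun i _ => ?_
      rw [Finset.sum_eq_single i]
      · rw [hff]
        split_ifs
        · rw [mul_one, sq]
        · rw [mul_zero]; positivity
      · intro j _ hj
        rw [hff, if_neg (fun h => hj h.1.symm), mul_zero]
      · intro h; exact absurd (Finset.mem_univ i) h
    linarith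
  have hcont : Continuous (fun x : ι → ℝ =>
      Real.exp (-(s * ∑ e, (∑ i, L e i * x i + w e) ^ 2))) := by fun_prop
  rw [rot b _ hcont]
  have hpt : ∀ y : ι → ℝ, Real.exp (-(s * ∑ e, (∑ i, L e i * (∑ i', y i' * b i' i) + w e) ^ 2)) ≤
      ∏ i, Real.exp (-(s * (Real.sqrt (lam i) * y i + c i) ^ 2)) := by
    intro y
    rw [← Real.exp_sum, Real.exp_le_exp, Finset.sum_neg_distrib, neg_le_neg_iff, ← Finset.mul_sum]
    refine mul_le_mul_of_nonneg_left ?_ hs
    refine le_trans (le_of_eq ?_) (bessel _)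
    refine Finset.sum_congr rfl fun i _ => ?_
    congr 1
    have k1 : ∀ e, ∑ i, L e i * (∑ i', y i' * b i' i) = ∑ i', y i' * ∑ k, L e k * b i' k := by
      intro e
      simp only [Finset.mul_sum]
      rw [Finset.sum_comm]
      exact Finset.sum_congr rfl fun _ _ => Finset.sum_congr rfl fun _ _ => by ring
    have k2 : ∑ e, f i e * (∑ i, L e i * (∑ i', y i' * b i' i) + w e) =
        ∑ i', y i' * ∑ e, f i e * (∑ k, L e k * b i' k) + c i := by
      simp only [k1, mul_add, Finset.sum_add_distrib, hc]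
      congr 1
      simp only [Finset.mul_sum]
      rw [Finset.sum_comm]
      exact Finset.sum_congr rfl fun _ _ => Finset.sum_congr rfl fun _ _ =>
        Finset.sum_congr rfl fun _ _ => by ring
    have k3 : ∀ i', ∑ e, f i e * (∑ k, L e k * b i' k) = if i = i' then Real.sqrt (lam i) else 0 := by
      intro i'
      have : ∑ e, f i e * (∑ k, L e k * b i' k) =
          (∑ e, (∑ k, L e k * b i k) * (∑ k, L e k * b i' k)) / Real.sqrt (lam i) := by
        rw [Finset.sum_div]
        exact Finset.sum_congr rfl fun e _ => by simp only [hf]; ring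
      rw [this, hT]
      split_ifs
      · exact Real.div_sqrt
      · simp
    rw [k2]
    simp only [k3]
    rw [Finset.sum_eq_single i]
    · rw [if_pos rfl, mul_comm]
    · intro j _ hj
      rw [if_neg (fun h => hj h.symm), mul_zero]
    · intro h; exact absurd (Finset.mem_univ i) h
  have h1 : ∫ y, Real.exp (-(s * ∑ e, (∑ i, L e i * (∑ i', y i' * b i' i) + w e) ^ 2))
      ∂(Measure.pi fun _ : ι => γ) ≤
      ∫ y, ∏ i, Real.exp (-(s * (Real.sqrt (lam i) * y i + c i) ^ 2))
        ∂(Measure.pi fun _ : ι => γ) := by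
    refine integral_mono ?_ ?_ hpt
    · refine int_cont _ (by fun_prop) (fun x => by positivity) (fun x => ?_)
      rw [Real.exp_le_one_iff, neg_nonpos]
      exact mul_nonneg hs (Finset.sum_nonneg fun _ _ => sq_nonneg _)
    · refine int_cont _ (by fun_prop) (fun x => by positivity) (fun x => ?_)
      refine Finset.prod_le_one (fun i _ => by positivity) fun i _ => ?_
      rw [Real.exp_le_one_iff, neg_nonpos]
      exact mul_nonneg hs (sq_nonneg _)
  refine h1.trans ?_
  rw [integral_fintype_prod_eq_prod (fun i y => Real.exp (-(s * (Real.sqrt (lam i) * y + c i) ^ 2)))]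
  have h2 : ∏ i, ∫ y, Real.exp (-(s * (Real.sqrt (lam i) * y + c i) ^ 2)) ∂γ ≤
      ∏ i, Real.exp (-(s * (1 - s * Λ) * lam i)) := by
    refine Finset.prod_le_prod (fun i _ => integral_nonneg fun _ => by positivity) fun i _ => ?_
    refine (gauss_lower s _ _ hs).trans (Real.exp_le_exp.2 ?_)
    have e1 : Real.sqrt (lam i) ^ 2 = lam i := Real.sq_sqrt (hl0 i)
    have e2 : Real.sqrt (lam i) ^ 4 = lam i ^ 2 := by
      rw [show (4 : ℕ) = 2 * 2 by norm_num, pow_mul, e1]
    rw [e1, e2]
    have := mul_le_mul_of_nonneg_left (hlΛ i) (hl0 i)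
    nlinarith [sq_nonneg s, mul_le_mul_of_nonneg_left this (sq_nonneg s)]
  refine h2.trans (le_of_eq ?_)
  rw [← Real.exp_sum, Finset.sum_neg_distrib, ← Finset.mul_sum, hsum]

/-- upper exponential moment -/
theorem mom_upper {ι κ : Type*} [Fintype ι] [DecidableEq ι] [Fintype κ] (L : κ → ι → ℝ)
    (Λ s : ℝ) (hs : 0 ≤ s) (hsΛ : s * Λ ≤ 1 / 4)
    (hΛ : ∀ x : ι → ℝ, ∑ e, (∑ i, L e i * x i) ^ 2 ≤ Λ * ∑ i, x i ^ 2) :
    Integrable (fun x => Real.exp (s * ∑ e, (∑ i, L e i * x i) ^ 2)) (Measure.pi fun _ : ι => γ) ∧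
    ∫ x, Real.exp (s * ∑ e, (∑ i, L e i * x i) ^ 2) ∂(Measure.pi fun _ : ι => γ) ≤
      Real.exp (s * (1 + 2 * s * Λ) * ∑ e, ∑ i, L e i ^ 2) := by
  obtain ⟨b, lam, hl0, hlΛ, hsum, hT⟩ := diag L Λ hΛ
  have hcont : Continuous (fun x : ι → ℝ => Real.exp (s * ∑ e, (∑ i, L e i * x i) ^ 2)) := by
    fun_prop
  have hpt : ∀ y : ι → ℝ, Real.exp (s * ∑ e, (∑ i, L e i * (∑ i', y i' * b i' i)) ^ 2) =
      ∏ i, Real.exp (s * lam i * y i ^ 2) := by
    intro y
    rw [← Real.exp_sum]
    congr 1
    have k1 : ∀ e, ∑ i, L e i * (∑ i', y i' * b i' i) = ∑ i', y i' * ∑ k, L e k * b i' k := by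
      intro e
      simp only [Finset.mul_sum]
      rw [Finset.sum_comm]
      exact Finset.sum_congr rfl fun _ _ => Finset.sum_congr rfl fun _ _ => by ring
    simp only [k1]
    have k2 : ∑ e, (∑ i', y i' * ∑ k, L e k * b i' k) ^ 2 =
        ∑ i, ∑ j, y i * y j * ∑ e, (∑ k, L e k * b i k) * (∑ k, L e k * b j k) := by
      have e1 : ∀ e, (∑ i', y i' * ∑ k, L e k * b i' k) ^ 2 =
          ∑ i, ∑ j, y i * y j * ((∑ k, L e k * b i k) * (∑ k, L e k * b j k)) := by
        intro e
        rw [sq, Finset.sum_mul_sum]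
        exact Finset.sum_congr rfl fun _ _ => Finset.sum_congr rfl fun _ _ => by ring
      simp only [e1]
      rw [Finset.sum_comm]
      refine Finset.sum_congr rfl fun i _ => ?_
      rw [Finset.sum_comm]
      refine Finset.sum_congr rfl fun j _ => ?_
      rw [← Finset.mul_sum]
    rw [k2, Finset.mul_sum]
    refine Finset.sum_congr rfl fun i _ => ?_
    rw [Finset.sum_eq_single i]
    · rw [hT, if_pos rfl]; ring
    · intro j _ hj
      rw [hT, if_neg (fun h => hj h.symm), mul_zero]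
    · intro h; exact absurd (Finset.mem_univ i) h
  have h14 : ∀ i, s * lam i ≤ 1 / 4 := fun i =>
    (mul_le_mul_of_nonneg_left (hlΛ i) hs).trans hsΛ
  have h0 : ∀ i, 0 ≤ s * lam i := fun i => mul_nonneg hs (hl0 i)
  have hint : Integrable (fun y : ι → ℝ => ∏ i, Real.exp (s * lam i * y i ^ 2))
      (Measure.pi fun _ : ι => γ) :=
    Integrable.fintype_prod (f := fun i y => Real.exp (s * lam i * y ^ 2))
      fun i => (gauss_upper (s * lam i) (h0 i) (h14 i)).1
  constructor
  · rw [← (rot_mp b).map_eq, integrable_map_measure hcont.aestronglyMeasurable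
      (rot_mp b).measurable.aemeasurable]
    refine hint.congr (Filter.Eventually.of_forall fun y => ?_)
    exact (hpt y).symm
  · rw [rot b _ hcont]
    simp only [hpt]
    rw [integral_fintype_prod_eq_prod (fun i y => Real.exp (s * lam i * y ^ 2))]
    have h2 : ∏ i, ∫ y, Real.exp (s * lam i * y ^ 2) ∂γ ≤
        ∏ i, Real.exp (s * (1 + 2 * s * Λ) * lam i) := by
      refine Finset.prod_le_prod (fun i _ => integral_nonneg fun _ => by positivity) fun i _ => ?_
      refine (gauss_upper _ (h0 i) (h14 i)).2.trans (Real.exp_le_exp.2 ?_)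
      have := mul_le_mul_of_nonneg_left (hlΛ i) (hl0 i)
      nlinarith [sq_nonneg s, mul_le_mul_of_nonneg_left this (sq_nonneg s)]
    refine h2.trans (le_of_eq ?_)
    rw [← Real.exp_sum, ← Finset.mul_sum, hsum]

end Run7.h632.NEG
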