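import Pool.Agent.Run7.h632.NEG.RMi

/-!
# MP_6c92e3_an, piece RM: number of sparse grid vectors
-/

set_option autoImplicit false

namespace Run7.h632.NEG

open Finset Run7.h35.NEG

/-- codes -/
noncomputable def CA (a m N : ℕ) : ℕ → Finset (Fin N → ℝ)
  | 0 => {0}
  | q + 1 => by
      classical
      exact CA a m N q ∪ (CA a m N q ×ˢ ((univ : Finset (Fin N)) ×ˢ Finset.Icc (-(m : ℤ)) m)).image
        (fun x => x.1 + Pi.single x.2.1 ((x.2.2 : ℝ) / 4 ^ a))

theorem CA_card (a m N q : ℕ) : (CA a m N q).card ≤ (1 + N * (2 * m + 1)) ^ q := by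
  classical
  induction q with
  | zero => simp [CA]
  | succ q ih =>
    unfold CA
    refine (card_union_le _ _).trans ?_
    have h1 : ((CA a m N q ×ˢ ((univ : Finset (Fin N)) ×ˢ Finset.Icc (-(m : ℤ)) m)).image
        (fun x => x.1 + Pi.single x.2.1 ((x.2.2 : ℝ) / 4 ^ a))).card ≤
        (CA a m N q).card * (N * (2 * m + 1)) := by
      refine card_image_le.trans ?_
      rw [card_product, card_product, card_univ, Fintype.card_fin, Int.card_Icc]
      refine Nat.mul_le_mul_left _ (Nat.mul_le_mul_left _ (le_of_eq ?_))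
      omega
    calc _ ≤ (CA a m N q).card + (CA a m N q).card * (N * (2 * m + 1)) :=
          Nat.add_le_add_left h1 _
      _ = (CA a m N q).card * (1 + N * (2 * m + 1)) := by ring
      _ ≤ (1 + N * (2 * m + 1)) ^ q * (1 + N * (2 * m + 1)) := Nat.mul_le_mul_right _ ih
      _ = _ := (pow_succ _ _).symm

theorem mem_CA (a m N q : ℕ) : ∀ v : Fin N → ℝ, (∀ ν, ∃ z : ℤ, |z| ≤ m ∧ v ν = z / 4 ^ a) →
    (univ.filter (fun ν => v ν ≠ 0)).card ≤ q → v ∈ CA a m N q := by
  classical
  induction q with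
  | zero =>
    intro v _ h
    have h1 : univ.filter (fun ν => v ν ≠ 0) = ∅ := card_eq_zero.1 (by omega)
    have h2 : v = 0 := by
      ext ν
      by_contra hc
      have : ν ∈ univ.filter (fun ν => v ν ≠ 0) := by simpa using hc
      rw [h1] at this
      simp at this
    rw [h2]
    simp [CA]
  | succ q ih =>
    intro v hv h
    unfold CA
    by_cases hq : (univ.filter (fun ν => v ν ≠ 0)).card ≤ q
    · exact mem_union_left _ (ih v hv hq)
    · apply mem_union_right
      have hne : (univ.filter (fun ν => v ν ≠ 0)).Nonempty := by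
        rw [← card_pos]; omega
      obtain ⟨ν0, hν0⟩ := hne
      obtain ⟨z, hz1, hz2⟩ := hv ν0
      rw [mem_image]
      refine ⟨(Function.update v ν0 0, (ν0, z)), ?_, ?_⟩
      · rw [mem_product, mem_product]
        refine ⟨ih _ ?_ ?_, mem_univ _, ?_⟩
        · intro ν
          by_cases hν : ν = ν0
          · subst hν
            exact ⟨0, by simp, by simp⟩
          · show ∃ z : ℤ, |z| ≤ m ∧ Function.update v ν0 0 ν = z / 4 ^ a
            rw [Function.update_of_ne hν]
            exact hv ν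
        · have : univ.filter (fun ν => Function.update v ν0 0 ν ≠ 0) =
              (univ.filter (fun ν => v ν ≠ 0)).erase ν0 := by
            ext ν
            simp only [mem_filter, mem_univ, true_and, mem_erase]
            by_cases hν : ν = ν0
            · subst hν; simp
            · rw [Function.update_of_ne hν]
              simp [hν]
          rw [this, card_erase_of_mem hν0]
          omega
        · rw [Finset.mem_Icc]
          exact abs_le.1 hz1
      · ext ν
        simp only [Pi.add_apply]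
        by_cases hν : ν = ν0
        · subst hν
          simp [hz2]
        · rw [Function.update_of_ne hν, Pi.single_eq_of_ne hν, add_zero]

theorem codes_num {h a : ℕ} (ha : 2 * h + 2 ≤ a) {N : ℕ} (hN : N ≤ 2 ^ a) :
    1 + N * (2 * (h * 4 ^ a) + 1) ≤ 2 ^ (4 * a) := by
  have h1 : 2 * h + 2 ≤ 2 ^ a := ha.trans (Nat.lt_two_pow_self).le
  have h4 : (4 : ℕ) ^ a = 2 ^ a * 2 ^ a := by
    rw [← mul_pow]; norm_num
  have h5 : (2 : ℕ) ^ (4 * a) = 2 ^ a * (2 ^ a * (2 ^ a * 2 ^ a)) := by
    rw [← pow_add, ← pow_add, ← pow_add]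
    congr 1
    ring
  have h6 : 1 ≤ 2 ^ a := Nat.one_le_two_pow
  rw [h4, h5]
  set y := 2 ^ a with hy
  calc 1 + N * (2 * (h * (y * y)) + 1) ≤ 1 + y * (2 * (h * (y * y)) + 1) := by gcongr
    _ = 2 * h * (y * (y * y)) + (y + 1) := by ring
    _ ≤ 2 * h * (y * (y * y)) + 2 * (y * (y * y)) := by
        have k1 : y * 1 ≤ y * (y * y) := Nat.mul_le_mul_left _ (Nat.mul_pos (by omega) (by omega))
        have k2 : 1 ≤ y * (y * y) := le_trans (by omega) k1
        omega
    _ = (2 * h + 2) * (y * (y * y)) := by ring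
    _ ≤ y * (y * (y * y)) := by gcongr

theorem codes : S_CODES := by
  intro H hH
  refine ⟨2 * ⌈H⌉₊ + 2, ?_, ?_⟩
  · have : (0 : ℝ) ≤ ⌈H⌉₊ := Nat.cast_nonneg _
    linarith
  intro a q N ha hq hN
  set h := ⌈H⌉₊ with hh
  have ha' : 2 * h + 2 ≤ a := by exact_mod_cast ha
  have hsub : {v : Fin N → ℝ | SG a q H v} ⊆ (CA a (h * 4 ^ a) N q : Set (Fin N → ℝ)) := by
    intro v hv
    obtain ⟨h1, h2, h3⟩ := hv
    refine mem_CA a (h * 4 ^ a) N q v ?_ h2
    intro ν
    obtain ⟨z, hz⟩ := h1 ν
    refine ⟨z, ?_, ?_⟩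
    · have k1 : v ν ^ 2 ≤ H ^ 2 :=
        (single_le_sum (f := fun ν => v ν ^ 2) (fun _ _ => sq_nonneg _) (mem_univ ν)).trans h3
      have k2 : |v ν| ≤ H := abs_le_of_sq_le_sq k1 (by linarith)
      have k3 : |(z : ℝ)| ≤ h * 4 ^ a := by
        rw [← hz, abs_mul, abs_of_nonneg (show (0 : ℝ) ≤ 4 ^ a by positivity)]
        gcongr
        exact k2.trans (Nat.le_ceil H)
      exact_mod_cast k3
    · rw [← hz, mul_div_assoc, div_self (by positivity), mul_one]
  refine ⟨(finite_toSet _).subset hsub, ?_⟩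
  refine (Set.ncard_le_ncard hsub (finite_toSet _)).trans ?_
  rw [Set.ncard_coe_finset]
  refine (CA_card _ _ _ _).trans ?_
  rw [pow_mul]
  exact Nat.pow_le_pow_left (codes_num ha' hN) q

end Run7.h632.NEG
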