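import Pool.Agent.Run7.h632.NEG.RMleak
import Pool.Agent.Run7.h632.NEG.RMcodes

set_option autoImplicit false

/-- LEAK -/
theorem Run7.h632.NEG.LEAK.main : Run7.h632.NEG.S_LEAK :=
  Run7.h632.NEG.leak Run7.h632.NEG.codes
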