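import Pool.Agent.Run7.h35.NEG.Iface

/-!
# MP_6c92e3_an, piece RM: sub-pieces
-/

set_option autoImplicit false

namespace Run7.h632.NEG

open MeasureTheory ProbabilityTheory Finset Run7.h35.NEG

/-- the Gaussian measure on `n × 2^a` matrices -/
noncomputable def mu (a n : ℕ) : Measure (Fin n × Fin (2 ^ a) → ℝ) :=
  Measure.pi fun _ => gaussianReal 0 1

/-- the normalised matrix -/
noncomputable def Gx {a n : ℕ} (x : Fin n × Fin (2 ^ a) → ℝ) : Fin n → Fin (2 ^ a) → ℝ :=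
  fun b ν => x (b, ν) / Real.sqrt n

def PDiag (ε : ℝ) (a n : ℕ) (G : Fin n → Fin (2 ^ a) → ℝ) : Prop :=
  ∀ ν, |∑ b, G b ν ^ 2 - 1| ≤ ε

def POff (a n : ℕ) (G : Fin n → Fin (2 ^ a) → ℝ) : Prop :=
  ∀ ν μ, ν ≠ μ → |∑ b, G b ν * G b μ| ≤ 8 * Real.sqrt ((a : ℝ) / n)

def PLeak (H ε C₀ : ℝ) (a n q : ℕ) (G : Fin n → Fin (2 ^ a) → ℝ) : Prop :=
  ∀ r R : ℕ, r ≤ 2 ^ a → C₀ * a * n ≤ r → C₀ * R ≤ r →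
    ∀ (u : Fin r → Fin (2 ^ a) → ℝ) (d : Fin r → Fin R → ℝ),
      (∀ t, SG a q H (u t)) → (∀ t, SG a q H (d t)) →
      (∀ t t', t ≠ t' → ∀ ν, u t ν = 0 ∨ u t' ν = 0) →
      ∀ A : Fin n → Fin R → ℝ,
        (1 - ε) * ∑ t, ∑ ν, u t ν ^ 2 - ε * r ≤
          ∑ t, ∑ b, (∑ ν, G b ν * u t ν - ∑ e, A b e * d t e) ^ 2

def PRigid (H ε C₀ : ℝ) (a n q ρ : ℕ) (G : Fin n → Fin (2 ^ a) → ℝ) : Prop :=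
  ∀ r : ℕ, r ≤ 2 ^ a → C₀ * a * n ^ 2 ≤ r →
    ∀ (u v : Fin r → Fin (2 ^ a) → ℝ),
      (∀ t, SG a q H (u t)) → (∀ t, SG a q H (v t)) →
      ∀ lam : ℝ, ε ≤ lam →
      (∀ α β : ℝ, lam * r * (α ^ 2 + β ^ 2) ≤
        ∑ t, ∑ ν ∈ univ.filter
          (fun ν => (univ.filter (fun t => u t ν ≠ 0 ∨ v t ν ≠ 0)).card ≤ ρ),
            (α * u t ν + β * v t ν) ^ 2) →
      ∀ (n' : ℕ), n ≤ 2 * n' → ∀ (p p' : Fin n' → Fin n → ℝ),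
        (∀ e f, ∑ b, p e b * p f b + ∑ b, p' e b * p' f b = if e = f then 1 else 0) →
        lam / 4 * r ≤ ∑ t, ∑ e,
          (∑ b, p e b * ∑ ν, G b ν * u t ν + ∑ b, p' e b * ∑ ν, G b ν * v t ν) ^ 2

/-- CODES: number of sparse grid vectors -/
def S_CODES : Prop :=
  ∀ H : ℝ, 1 ≤ H → ∃ C₁ : ℝ, 1 ≤ C₁ ∧ ∀ a q N : ℕ, C₁ ≤ a → 1 ≤ q → N ≤ 2 ^ a →
    {v : Fin N → ℝ | SG a q H v}.Finite ∧ {v : Fin N → ℝ | SG a q H v}.ncard ≤ 2 ^ (4 * a * q)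

/-- DIAGOFF -/
def S_DIAGOFF : Prop :=
  ∀ ε : ℝ, 0 < ε → ε < 1 → ∃ C₁ : ℝ, 1 ≤ C₁ ∧ ∀ C₀ : ℝ, C₁ ≤ C₀ →
    ∀ a n q ρ : ℕ, C₀ ≤ a → 1 ≤ q → 1 ≤ ρ → C₀ * a * q * ρ ≤ n →
      (mu a n).real {x | ¬ PDiag ε a n (Gx x)} ≤ 1 / 5 ∧
      (mu a n).real {x | ¬ POff a n (Gx x)} ≤ 1 / 5

/-- LEAK -/
def S_LEAK : Prop :=
  ∀ H ε : ℝ, 1 ≤ H → 0 < ε → ε < 1 → ∃ C₁ : ℝ, 1 ≤ C₁ ∧ ∀ C₀ : ℝ, C₁ ≤ C₀ →
    ∀ a n q ρ : ℕ, C₀ ≤ a → 1 ≤ q → 1 ≤ ρ → C₀ * a * q * ρ ≤ n →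
      (mu a n).real {x | ¬ PLeak H ε C₀ a n q (Gx x)} ≤ 1 / 5

/-- RIGID -/
def S_RIGID : Prop :=
  ∀ H ε : ℝ, 1 ≤ H → 0 < ε → ε < 1 → ∃ C₁ : ℝ, 1 ≤ C₁ ∧ ∀ C₀ : ℝ, C₁ ≤ C₀ →
    ∀ a n q ρ : ℕ, C₀ ≤ a → 1 ≤ q → 1 ≤ ρ → C₀ * a * q * ρ ≤ n →
      (mu a n).real {x | PDiag ε a n (Gx x) ∧ ¬ PRigid H ε C₀ a n q ρ (Gx x)} ≤ 1 / 5

/-- the assembly -/
theorem rm_of (h1 : S_DIAGOFF) (h2 : S_LEAK) (h3 : S_RIGID) : S_RM := by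
  intro H ε hH hε hε1
  obtain ⟨c1, hc1, k1⟩ := h1 ε hε hε1
  obtain ⟨c2, hc2, k2⟩ := h2 H ε hH hε hε1
  obtain ⟨c3, hc3, k3⟩ := h3 H ε hH hε hε1
  refine ⟨max c1 (max c2 c3), le_max_of_le_left hc1, ?_⟩
  intro a n q ρ ha hq hρ hn
  obtain ⟨m1, m2⟩ := k1 _ (le_max_left _ _) a n q ρ ha hq hρ hn
  have m3 := k2 _ ((le_max_left _ _).trans (le_max_right _ _)) a n q ρ ha hq hρ hn
  have m4 := k3 _ ((le_max_right _ _).trans (le_max_right _ _)) a n q ρ ha hq hρ hn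
  set C₀ := max c1 (max c2 c3) with hC₀
  have : IsProbabilityMeasure (mu a n) := by unfold mu; infer_instance
  set B1 := {x | ¬ PDiag ε a n (Gx x)}
  set B2 := {x | ¬ POff a n (Gx x)}
  set B3 := {x | ¬ PLeak H ε C₀ a n q (Gx x)}
  set B4 := {x | PDiag ε a n (Gx x) ∧ ¬ PRigid H ε C₀ a n q ρ (Gx x)}
  have hU : (mu a n).real (B1 ∪ B2 ∪ B3 ∪ B4) ≤ 4 / 5 := by
    refine (measureReal_union_le _ _).trans ?_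
    have e1 := measureReal_union_le (μ := mu a n) (B1 ∪ B2) B3
    have e2 := measureReal_union_le (μ := mu a n) B1 B2
    linarith
  have hne : B1 ∪ B2 ∪ B3 ∪ B4 ≠ Set.univ := by
    intro h
    rw [h] at hU
    simp at hU
    norm_num at hU
  obtain ⟨x, hx⟩ := (Set.ne_univ_iff_exists_notMem _).1 hne
  simp only [Set.mem_union, not_or] at hx
  obtain ⟨⟨⟨x1, x2⟩, x3⟩, x4⟩ := hx
  have y1 : PDiag ε a n (Gx x) := not_not.1 x1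
  have y4 : PRigid H ε C₀ a n q ρ (Gx x) := by
    by_contra hc
    exact x4 ⟨y1, hc⟩
  exact ⟨Gx x, y1, not_not.1 x2, not_not.1 x3, y4⟩

end Run7.h632.NEG
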