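import Pool.Agent.Run7.h632.NEG.RMi
import Pool.Agent.Run7.h632.NEG.GAUSS

/-!
# MP_6c92e3_an, piece RM, LEAK
-/

set_option autoImplicit false

namespace Run7.h632.NEG

open MeasureTheory ProbabilityTheory Finset Run7.h35.NEG

/-- Bessel's inequality in coordinates -/
theorem bess {I κ : Type*} [Fintype I] [DecidableEq I] [Fintype κ] (f : I → κ → ℝ)
    (hf : ∀ k l, ∑ t, f k t * f l t = if k = l then 1 else 0) (v : κ → ℝ) :
    ∑ k, (∑ t, f k t * v t) ^ 2 ≤ ∑ t, v t ^ 2 := by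
  set a : I → ℝ := fun i => ∑ e, f i e * v e with ha
  have h1 : 0 ≤ ∑ e, (v e - ∑ i, a i * f i e) ^ 2 := Finset.sum_nonneg fun _ _ => sq_nonneg _
  have h2 : ∑ e, (v e - ∑ i, a i * f i e) ^ 2 =
      ∑ e, v e ^ 2 - 2 * ∑ i, a i ^ 2 + ∑ i, ∑ j, a i * a j * ∑ e, f i e * f j e := by
    have e1 : ∀ e, (v e - ∑ i, a i * f i e) ^ 2 =
        v e ^ 2 - 2 * ∑ i, a i * (f i e * v e) + ∑ i, ∑ j, a i * a j * (f i e * f j e) := by
      intro e
      have k1 : v e * ∑ i, a i * f i e = ∑ i, a i * (f i e * v e) := by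
        rw [Finset.mul_sum]
        exact Finset.sum_congr rfl fun _ _ => by ring
      have k2 : (∑ i, a i * f i e) ^ 2 = ∑ i, ∑ j, a i * a j * (f i e * f j e) := by
        rw [sq, Finset.sum_mul_sum]
        exact Finset.sum_congr rfl fun _ _ => Finset.sum_congr rfl fun _ _ => by ring
      rw [← k1, ← k2]
      ring
    simp only [e1]
    rw [Finset.sum_add_distrib, Finset.sum_sub_distrib, ← Finset.mul_sum]
    congr 1
    · congr 2
      rw [Finset.sum_comm]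
      refine Finset.sum_congr rfl fun i _ => ?_
      rw [← Finset.mul_sum]
      simp only [ha]
      rw [sq]
    · rw [Finset.sum_comm]
      refine Finset.sum_congr rfl fun i _ => ?_
      rw [Finset.sum_comm]
      refine Finset.sum_congr rfl fun j _ => ?_
      rw [← Finset.mul_sum]
  have h3 : ∑ i, ∑ j, a i * a j * ∑ e, f i e * f j e = ∑ i, a i ^ 2 := by
    refine Finset.sum_congr rfl fun i _ => ?_
    rw [Finset.sum_eq_single i]
    · rw [hf, if_pos rfl, mul_one, sq]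
    · intro j _ hj
      rw [hf, if_neg (fun h => hj h.symm), mul_zero]
    · intro h; exact absurd (Finset.mem_univ i) h
  linarith

theorem exists_perp {r R : ℕ} (d : Fin r → Fin R → ℝ) :
    ∃ (m : ℕ) (f : Fin m → Fin r → ℝ), r ≤ m + R ∧
      (∀ k l, ∑ t, f k t * f l t = if k = l then 1 else 0) ∧ ∀ k e, ∑ t, f k t * d t e = 0 := by
  set g : Fin R → EuclideanSpace ℝ (Fin r) := fun e => WithLp.toLp 2 (fun t => d t e) with hg
  set S := Submodule.span ℝ (Set.range g) with hS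
  set b := stdOrthonormalBasis ℝ Sᗮ with hb
  refine ⟨Module.finrank ℝ Sᗮ, fun k t => (b k : EuclideanSpace ℝ (Fin r)) t, ?_, ?_, ?_⟩
  · have h1 := Submodule.finrank_add_finrank_orthogonal S
    have h2 : Module.finrank ℝ S ≤ R := by
      have := finrank_range_le_card (R := ℝ) g
      rw [Fintype.card_fin] at this
      exact this
    rw [finrank_euclideanSpace_fin] at h1
    omega
  · intro k l
    have h1 := orthonormal_iff_ite.1 b.orthonormal l k
    rw [Submodule.coe_inner, PiLp.inner_apply] at h1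
    simp only [RCLike.inner_apply, conj_trivial] at h1
    rw [h1]
    by_cases h : k = l
    · simp [h]
    · rw [if_neg h, if_neg (fun h' => h h'.symm)]
  · intro k e
    have h1 : inner ℝ (g e) (b k : EuclideanSpace ℝ (Fin r)) = 0 :=
      (Submodule.mem_orthogonal S _).1 (b k).2 (g e) (Submodule.subset_span ⟨e, rfl⟩)
    rw [PiLp.inner_apply] at h1
    simp only [RCLike.inner_apply, conj_trivial, hg] at h1
    exact h1

variable {a n r R : ℕ} {H ε C₀ : ℝ}

/-- the failure probability for one configuration -/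
theorem leak1 (hH : 1 ≤ H) (hε : 0 < ε) (hε1 : ε < 1) (hC : 2 * H ^ 2 / ε ≤ C₀) (hn : 1 ≤ n)
    (hR : C₀ * R ≤ r) (u : Fin r → Fin (2 ^ a) → ℝ) (d : Fin r → Fin R → ℝ)
    (hu : ∀ t, ∑ ν, u t ν ^ 2 ≤ H ^ 2)
    (hdisj : ∀ t t', t ≠ t' → ∀ ν, u t ν = 0 ∨ u t' ν = 0) :
    (mu a n).real {x | ∃ A : Fin n → Fin R → ℝ,
      ∑ t, ∑ b, (∑ ν, Gx x b ν * u t ν - ∑ e, A b e * d t e) ^ 2 <
        (1 - ε) * ∑ t, ∑ ν, u t ν ^ 2 - ε * r} ≤ Real.exp (-(ε ^ 3 * r * n / (32 * H ^ 2))) := by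
  have hpm : IsProbabilityMeasure (mu a n) := by unfold mu; infer_instance
  set U := ∑ t, ∑ ν, u t ν ^ 2 with hU
  have hn0 : (0 : ℝ) < n := by exact_mod_cast hn
  have hsn : Real.sqrt n ^ 2 = n := Real.sq_sqrt hn0.le
  have hsn0 : 0 < Real.sqrt n := Real.sqrt_pos.2 hn0
  by_cases hcase : (1 - ε) * U - ε * r ≤ 0
  · have : {x | ∃ A : Fin n → Fin R → ℝ,
        ∑ t, ∑ b, (∑ ν, Gx (a := a) x b ν * u t ν - ∑ e, A b e * d t e) ^ 2 <
        (1 - ε) * U - ε * r} = ∅ := by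
      refine Set.eq_empty_of_forall_notMem ?_
      rintro x ⟨A, hA⟩
      have : 0 ≤ ∑ t, ∑ b, (∑ ν, Gx (a := a) x b ν * u t ν - ∑ e, A b e * d t e) ^ 2 :=
        sum_nonneg fun _ _ => sum_nonneg fun _ _ => sq_nonneg _
      linarith
    rw [this]
    simp only [measureReal_empty]
    positivity
  push Not at hcase
  obtain ⟨m, f, hm, hf, hfd⟩ := exists_perp d
  set L : (Fin n × Fin m) → (Fin n × Fin (2 ^ a)) → ℝ := fun bk bν =>
    if bk.1 = bν.1 then (∑ t, f bk.2 t * u t bν.2) / Real.sqrt n else 0 with hL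
  have hLx : ∀ (x : Fin n × Fin (2 ^ a) → ℝ) (b : Fin n) (k : Fin m),
      ∑ i, L (b, k) i * x i = ∑ t, f k t * ∑ ν, Gx x b ν * u t ν := by
    intro x b k
    rw [Fintype.sum_prod_type, Finset.sum_eq_single b]
    · simp only [hL, if_true]
      simp only [mul_sum, sum_mul, Gx, sum_div]
      rw [sum_comm]
      refine sum_congr rfl fun t _ => sum_congr rfl fun ν _ => ?_
      ring
    · intro b' _ hb'
      refine sum_eq_zero fun ν _ => ?_
      simp only [hL]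
      rw [if_neg (fun h => hb' h.symm), zero_mul]
    · intro h; exact absurd (mem_univ b) h
  have hQ : ∀ x : Fin n × Fin (2 ^ a) → ℝ, ∑ e, (∑ i, L e i * x i) ^ 2 =
      ∑ b, ∑ k, (∑ t, f k t * ∑ ν, Gx x b ν * u t ν) ^ 2 := by
    intro x
    rw [Fintype.sum_prod_type]
    simp only [hLx]
  -- the norm
  have hΛ : ∀ x : Fin n × Fin (2 ^ a) → ℝ, (∀ i, i ∉ (univ : Finset (Fin n × Fin (2 ^ a))) → x i = 0) →
      ∑ e, (∑ i, L e i * x i) ^ 2 ≤ (H ^ 2 / n) * ∑ i, x i ^ 2 := by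
    intro x _
    rw [hQ]
    have h1 : ∀ b, ∑ k, (∑ t, f k t * ∑ ν, Gx x b ν * u t ν) ^ 2 ≤
        ∑ t, (∑ ν, Gx x b ν * u t ν) ^ 2 := fun b => bess f hf _
    have h2 : ∀ b t, (∑ ν, Gx x b ν * u t ν) ^ 2 ≤
        H ^ 2 / n * ∑ ν ∈ univ.filter (fun ν => u t ν ≠ 0), x (b, ν) ^ 2 := by
      intro b t
      have e1 : ∑ ν, Gx x b ν * u t ν =
          ∑ ν ∈ univ.filter (fun ν => u t ν ≠ 0), x (b, ν) / Real.sqrt n * u t ν := by
        rw [sum_filter]
        refine sum_congr rfl fun ν _ => ?_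
        by_cases h0 : u t ν = 0
        · simp [h0]
        · rw [if_pos h0]; rfl
      rw [e1]
      refine (sum_mul_sq_le_sq_mul_sq _ _ _).trans ?_
      have e2 : ∑ ν ∈ univ.filter (fun ν => u t ν ≠ 0), u t ν ^ 2 ≤ H ^ 2 :=
        (sum_le_sum_of_subset_of_nonneg (filter_subset _ _) fun _ _ _ => sq_nonneg _).trans (hu t)
      have e3 : ∑ ν ∈ univ.filter (fun ν => u t ν ≠ 0), (x (b, ν) / Real.sqrt n) ^ 2 =
          (∑ ν ∈ univ.filter (fun ν => u t ν ≠ 0), x (b, ν) ^ 2) / n := by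
        rw [sum_div]
        refine sum_congr rfl fun ν _ => ?_
        rw [div_pow, hsn]
      rw [e3]
      have e4 : 0 ≤ ∑ ν ∈ univ.filter (fun ν => u t ν ≠ 0), x (b, ν) ^ 2 :=
        sum_nonneg fun _ _ => sq_nonneg _
      calc (∑ ν ∈ univ.filter (fun ν => u t ν ≠ 0), x (b, ν) ^ 2) / n *
            ∑ ν ∈ univ.filter (fun ν => u t ν ≠ 0), u t ν ^ 2
          ≤ (∑ ν ∈ univ.filter (fun ν => u t ν ≠ 0), x (b, ν) ^ 2) / n * H ^ 2 :=
            mul_le_mul_of_nonneg_left e2 (by positivity)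
        _ = _ := by ring
    have h3 : ∀ b, ∑ t, ∑ ν ∈ univ.filter (fun ν => u t ν ≠ 0), x (b, ν) ^ 2 ≤
        ∑ ν, x (b, ν) ^ 2 := by
      intro b
      rw [← sum_biUnion]
      · exact sum_le_sum_of_subset_of_nonneg (subset_univ _) fun _ _ _ => sq_nonneg _
      · intro t _ t' _ hne
        rw [Function.onFun, disjoint_left]
        intro ν h4 h5
        rw [mem_filter] at h4 h5
        rcases hdisj t t' hne ν with h6 | h6
        · exact h4.2 h6
        · exact h5.2 h6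
    calc ∑ b, ∑ k, (∑ t, f k t * ∑ ν, Gx x b ν * u t ν) ^ 2
        ≤ ∑ b, ∑ t, H ^ 2 / n * ∑ ν ∈ univ.filter (fun ν => u t ν ≠ 0), x (b, ν) ^ 2 :=
          sum_le_sum fun b _ => (h1 b).trans (sum_le_sum fun t _ => h2 b t)
      _ = H ^ 2 / n * ∑ b, ∑ t, ∑ ν ∈ univ.filter (fun ν => u t ν ≠ 0), x (b, ν) ^ 2 := by
          simp only [← mul_sum]
      _ ≤ H ^ 2 / n * ∑ b, ∑ ν, x (b, ν) ^ 2 :=
          mul_le_mul_of_nonneg_left (sum_le_sum fun b _ => h3 b) (by positivity)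
      _ = _ := by rw [Fintype.sum_prod_type]
  -- the trace
  set g : Fin r → ℝ := fun t => ∑ k, f k t ^ 2 with hg
  have hg1 : ∀ t, g t ≤ 1 := by
    intro t
    have := bess f hf (fun t' => if t' = t then 1 else 0)
    simpa [hg] using this
  have hgs : ∑ t, g t = m := by
    simp only [hg]
    rw [sum_comm]
    have : ∀ k, ∑ t, f k t ^ 2 = 1 := by
      intro k
      have := hf k k
      rw [if_pos rfl] at this
      rw [← this]
      exact sum_congr rfl fun _ _ => sq _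
    simp [this]
  have htr : ∑ e, ∑ i, L e i ^ 2 = ∑ t, g t * ∑ ν, u t ν ^ 2 := by
    have h1 : ∀ (b : Fin n) (k : Fin m), ∑ i, L (b, k) i ^ 2 =
        (∑ ν, (∑ t, f k t * u t ν) ^ 2) / n := by
      intro b k
      rw [Fintype.sum_prod_type, Finset.sum_eq_single b]
      · simp only [hL, if_true, div_pow, hsn]
        rw [sum_div]
      · intro b' _ hb'
        refine sum_eq_zero fun ν _ => ?_
        simp only [hL]
        rw [if_neg (fun h => hb' h.symm)]
        ring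
      · intro h; exact absurd (mem_univ b) h
    have h2 : ∀ (k : Fin m) (ν : Fin (2 ^ a)), (∑ t, f k t * u t ν) ^ 2 =
        ∑ t, f k t ^ 2 * u t ν ^ 2 := by
      intro k ν
      rw [sq, sum_mul_sum]
      refine sum_congr rfl fun t _ => ?_
      rw [Finset.sum_eq_single t]
      · ring
      · intro t' _ ht'
        rcases hdisj t t' (fun h => ht' h.symm) ν with h | h <;> rw [h] <;> ring
      · intro h; exact absurd (mem_univ t) h
    rw [Fintype.sum_prod_type]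
    simp only [h1, h2]
    rw [sum_const, card_univ, Fintype.card_fin, nsmul_eq_mul, ← sum_div, mul_div_cancel₀ _ hn0.ne']
    simp only [hg, sum_mul, mul_sum]
    rw [sum_comm]
    have : ∀ ν : Fin (2 ^ a), ∑ k, ∑ t, f k t ^ 2 * u t ν ^ 2 = ∑ t, ∑ k, f k t ^ 2 * u t ν ^ 2 :=
      fun ν => sum_comm
    simp only [this]
    rw [sum_comm]
  have hτ : U - H ^ 2 * R ≤ ∑ e, ∑ i, L e i ^ 2 := by
    rw [htr]
    have h1 : U - ∑ t, g t * ∑ ν, u t ν ^ 2 = ∑ t, (1 - g t) * ∑ ν, u t ν ^ 2 := by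
      rw [hU, ← sum_sub_distrib]
      exact sum_congr rfl fun t _ => by ring
    have h2 : ∑ t, (1 - g t) * ∑ ν, u t ν ^ 2 ≤ ∑ t, (1 - g t) * H ^ 2 :=
      sum_le_sum fun t _ => mul_le_mul_of_nonneg_left (hu t) (by linarith [hg1 t])
    have h3 : ∑ t, (1 - g t) * H ^ 2 = (r - m) * H ^ 2 := by
      rw [← sum_mul, sum_sub_distrib, hgs]
      simp
    have h4 : ((r : ℝ) - m) * H ^ 2 ≤ R * H ^ 2 := by
      have : (r : ℝ) ≤ m + R := by exact_mod_cast hm
      exact mul_le_mul_of_nonneg_right (by linarith) (by positivity)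
    linarith
  -- Gaussian tail
  have hR' : H ^ 2 * R ≤ ε * r / 2 := by
    have h1 : 2 * H ^ 2 / ε * R ≤ r := (mul_le_mul_of_nonneg_right hC (Nat.cast_nonneg _)).trans hR
    rw [div_mul_eq_mul_div, div_le_iff₀ hε] at h1
    linarith
  have hUr : ε * r ≤ U := by
    have hU0 : 0 ≤ U := sum_nonneg fun _ _ => sum_nonneg fun _ _ => sq_nonneg _
    nlinarith
  have hgs := (gauss (Fin n × Fin (2 ^ a)) (Fin n × Fin m) L univ (U - H ^ 2 * R) (H ^ 2 / n) (ε / 2)
    (by positivity) (by positivity) (by linarith) hΛ).1 hτ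
  have hsub : {x | ∃ A : Fin n → Fin R → ℝ,
      ∑ t, ∑ b, (∑ ν, Gx x b ν * u t ν - ∑ e, A b e * d t e) ^ 2 < (1 - ε) * U - ε * r} ⊆
      {x : Fin n × Fin (2 ^ a) → ℝ | ∑ e, (∑ i, L e i * x i) ^ 2 ≤
        (1 - ε / 2) * (U - H ^ 2 * R)} := by
    rintro x ⟨A, hA⟩
    show ∑ e, (∑ i, L e i * x i) ^ 2 ≤ (1 - ε / 2) * (U - H ^ 2 * R)
    rw [hQ]
    have h1 : ∀ b, ∑ k, (∑ t, f k t * ∑ ν, Gx x b ν * u t ν) ^ 2 ≤
        ∑ t, (∑ ν, Gx x b ν * u t ν - ∑ e, A b e * d t e) ^ 2 := by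
      intro b
      refine le_trans (le_of_eq ?_) (bess f hf (fun t => ∑ ν, Gx x b ν * u t ν - ∑ e, A b e * d t e))
      refine sum_congr rfl fun k _ => ?_
      congr 1
      have : ∑ t, f k t * ∑ e, A b e * d t e = 0 := by
        have e1 : ∑ t, f k t * ∑ e, A b e * d t e = ∑ e, A b e * ∑ t, f k t * d t e := by
          simp only [mul_sum]
          rw [sum_comm]
          exact sum_congr rfl fun _ _ => sum_congr rfl fun _ _ => by ring
        rw [e1]
        simp [hfd]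
      simp only [mul_sub, sum_sub_distrib, this, sub_zero]
    have h2 : ∑ b, ∑ k, (∑ t, f k t * ∑ ν, Gx x b ν * u t ν) ^ 2 ≤
        ∑ t, ∑ b, (∑ ν, Gx x b ν * u t ν - ∑ e, A b e * d t e) ^ 2 := by
      rw [sum_comm (s := (univ : Finset (Fin r)))]
      exact sum_le_sum fun b _ => h1 b
    have h8 : 0 ≤ ε / 2 * (H ^ 2 * R) := by positivity
    have h9 : 0 ≤ ε * r := by positivity
    have h10 : 0 ≤ ε / 2 * U := mul_nonneg (by linarith) (h9.trans hUr)
    have h11 : (1 - ε / 2) * (U - H ^ 2 * R) = (1 - ε) * U + ε / 2 * U - H ^ 2 * R +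
        ε / 2 * (H ^ 2 * R) := by ring
    rw [h11]
    linarith
  refine (measureReal_mono hsub (measure_ne_top _ _)).trans (hgs.trans (Real.exp_le_exp.2 (neg_le_neg ?_)))
  have h5 : (ε / 2) ^ 2 * (U - H ^ 2 * R) / (4 * (H ^ 2 / n)) =
      ε ^ 2 * (U - H ^ 2 * R) * n / (16 * H ^ 2) := by
    field_simp
    ring
  rw [h5]
  rw [div_le_div_iff₀ (by positivity) (by positivity)]
  have h6 : ε * r / 2 ≤ U - H ^ 2 * R := by linarith
  have h7 : 0 ≤ ε ^ 2 * n * (16 * H ^ 2) := by positivity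
  nlinarith [mul_le_mul_of_nonneg_left h6 h7]

theorem expo {a q r n ρ : ℕ} {c C₀ : ℝ} (hc : 0 < c) (hC : 12 ≤ c * C₀) (hq : 1 ≤ q)
    (hr : 1 ≤ r) (hρ : 1 ≤ ρ) (hn : C₀ * a * q * ρ ≤ n) :
    ((2 : ℝ) ^ (4 * a * q)) ^ r * ((2 : ℝ) ^ (4 * a * q)) ^ r * Real.exp (-(c * r * n)) ≤
      Real.exp (-(4 * a)) := by
  have h1 : ∀ k : ℕ, (2 : ℝ) ^ k ≤ Real.exp k := by
    intro k
    have : (2 : ℝ) ≤ Real.exp 1 := by have := Real.add_one_le_exp (1 : ℝ); linarith
    calc (2 : ℝ) ^ k ≤ Real.exp 1 ^ k := pow_le_pow_left₀ (by norm_num) this k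
      _ = Real.exp k := by rw [← Real.exp_nat_mul]; simp
  rw [← pow_mul, ← pow_add]
  refine (mul_le_mul_of_nonneg_right (h1 _) (Real.exp_pos _).le).trans ?_
  rw [← Real.exp_add, Real.exp_le_exp]
  have hr' : (1 : ℝ) ≤ r := by exact_mod_cast hr
  have hq' : (1 : ℝ) ≤ q := by exact_mod_cast hq
  have hρ' : (1 : ℝ) ≤ ρ := by exact_mod_cast hρ
  have ha' : (0 : ℝ) ≤ a := Nat.cast_nonneg _
  have k1 : 12 * ((a : ℝ) * q * r) ≤ c * r * n := by
    have k2 : c * r * (C₀ * a * q * ρ) ≤ c * r * n := mul_le_mul_of_nonneg_left hn (by positivity)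
    have k3 : 12 * ((a : ℝ) * q * r) ≤ (c * C₀) * ((a : ℝ) * q * r) :=
      mul_le_mul_of_nonneg_right hC (by positivity)
    have k4 : (c * C₀) * ((a : ℝ) * q * r) * 1 ≤ (c * C₀) * ((a : ℝ) * q * r) * ρ :=
      mul_le_mul_of_nonneg_left hρ' (mul_nonneg (by linarith) (by positivity))
    nlinarith
  have k5 : (a : ℝ) ≤ a * q * r := by
    have : (1 : ℝ) ≤ q * r := by nlinarith
    nlinarith
  push_cast
  nlinarith

theorem expo2 {a : ℕ} (ha : 10 ≤ a) :
    (((2 ^ a + 1 : ℕ) : ℝ)) * ((((2 ^ a + 1 : ℕ) : ℝ)) * Real.exp (-(4 * a))) ≤ 1 / 5 := by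
  have h2 : (2 : ℝ) ^ a ≤ Real.exp a := by
    have : (2 : ℝ) ≤ Real.exp 1 := by have := Real.add_one_le_exp (1 : ℝ); linarith
    calc (2 : ℝ) ^ a ≤ Real.exp 1 ^ a := pow_le_pow_left₀ (by norm_num) this a
      _ = Real.exp a := by rw [← Real.exp_nat_mul]; simp
  have h3 : (((2 ^ a + 1 : ℕ) : ℝ)) ≤ 2 * Real.exp a := by
    push_cast
    have : (1 : ℝ) ≤ (2 : ℝ) ^ a := one_le_pow₀ (by norm_num)
    linarith
  have h4 : (((2 ^ a + 1 : ℕ) : ℝ)) * ((((2 ^ a + 1 : ℕ) : ℝ)) * Real.exp (-(4 * a))) ≤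
      (2 * Real.exp a) * ((2 * Real.exp a) * Real.exp (-(4 * a))) := by gcongr
  have h5 : (2 * Real.exp a) * ((2 * Real.exp a) * Real.exp (-(4 * (a : ℝ)))) =
      4 * Real.exp (-(2 * a)) := by
    have : Real.exp (a : ℝ) * Real.exp a * Real.exp (-(4 * (a : ℝ))) = Real.exp (-(2 * a)) := by
      rw [← Real.exp_add, ← Real.exp_add]
      congr 1
      ring
    rw [← this]
    ring
  rw [h5] at h4
  have h6 : (20 : ℝ) ≤ Real.exp (2 * a) := by
    have h7 := Real.add_one_le_exp (2 * (a : ℝ))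
    have : (10 : ℝ) ≤ a := by exact_mod_cast ha
    linarith
  have h8 : Real.exp (-(2 * (a : ℝ))) ≤ 1 / 20 := by
    rw [Real.exp_neg, ← one_div]
    exact one_div_le_one_div_of_le (by norm_num) h6
  linarith

theorem leak (hcodes : S_CODES) : S_LEAK := by
  intro H ε hH hε hε1
  obtain ⟨c1, hc1, hc1'⟩ := hcodes H hH
  set c : ℝ := ε ^ 3 / (32 * H ^ 2) with hc
  have hc0 : 0 < c := by positivity
  refine ⟨max (max c1 10) (max (2 * H ^ 2 / ε) (12 / c)),
    le_max_of_le_left (le_max_of_le_left hc1), ?_⟩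
  intro C₀ hC₀ a n q ρ ha hq hρ hn
  have b1 : c1 ≤ C₀ := ((le_max_left _ _).trans (le_max_left _ _)).trans hC₀
  have b2 : 10 ≤ C₀ := ((le_max_right _ _).trans (le_max_left _ _)).trans hC₀
  have b3 : 2 * H ^ 2 / ε ≤ C₀ := ((le_max_left _ _).trans (le_max_right _ _)).trans hC₀
  have b4 : 12 / c ≤ C₀ := ((le_max_right _ _).trans (le_max_right _ _)).trans hC₀
  have b4' : 12 ≤ c * C₀ := by
    rw [div_le_iff₀ hc0] at b4
    linarith
  have ha10 : 10 ≤ a := by exact_mod_cast b2.trans ha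
  have hpm : IsProbabilityMeasure (mu a n) := by unfold mu; infer_instance
  have hn1 : 1 ≤ n := by
    have h1 : (1 : ℝ) ≤ C₀ * a * q * ρ := by
      have e1 : (1 : ℝ) ≤ a := by exact_mod_cast (by omega : 1 ≤ a)
      have e2 : (1 : ℝ) ≤ q := by exact_mod_cast hq
      have e3 : (1 : ℝ) ≤ ρ := by exact_mod_cast hρ
      have e4 : (1 : ℝ) ≤ C₀ * a := by nlinarith
      have e5 : (1 : ℝ) ≤ C₀ * a * q := by nlinarith
      nlinarith
    exact_mod_cast h1.trans hn
  set E : (r R : ℕ) → (Fin r → Fin (2 ^ a) → ℝ) → (Fin r → Fin R → ℝ) →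
      Set (Fin n × Fin (2 ^ a) → ℝ) := fun r R u d =>
    {x | ((∀ t, SG a q H (u t)) ∧ (∀ t, SG a q H (d t)) ∧
      (∀ t t', t ≠ t' → ∀ ν, u t ν = 0 ∨ u t' ν = 0)) ∧ ∃ A : Fin n → Fin R → ℝ,
      ∑ t, ∑ b, (∑ ν, Gx x b ν * u t ν - ∑ e, A b e * d t e) ^ 2 <
        (1 - ε) * ∑ t, ∑ ν, u t ν ^ 2 - ε * r} with hE
  have hE1 : ∀ r R : ℕ, C₀ * R ≤ r → ∀ u d, (mu a n).real (E r R u d) ≤
      Real.exp (-(c * r * n)) := by
    intro r R hR u d
    by_cases hcond : (∀ t, SG a q H (u t)) ∧ (∀ t, SG a q H (d t)) ∧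
      (∀ t t', t ≠ t' → ∀ ν, u t ν = 0 ∨ u t' ν = 0)
    · refine (measureReal_mono (fun x hx => hx.2) (measure_ne_top _ _)).trans
        ((leak1 hH hε hε1 b3 hn1 hR u d (fun t => (hcond.1 t).2.2) hcond.2.2).trans (le_of_eq ?_))
      rw [hc]
      congr 2
      ring
    · have : E r R u d = ∅ := by
        refine Set.eq_empty_of_forall_notMem fun x hx => hcond hx.1
      rw [this, measureReal_empty]
      positivity
  set Bd : ℕ → ℕ → Set (Fin n × Fin (2 ^ a) → ℝ) := fun r R =>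
    {x | (C₀ * a * n ≤ r ∧ C₀ * R ≤ r) ∧ ∃ u d, x ∈ E r R u d} with hBd
  have hBd1 : ∀ r ≤ 2 ^ a, ∀ R ≤ 2 ^ a, (mu a n).real (Bd r R) ≤ Real.exp (-(4 * a)) := by
    intro r hr R hR
    by_cases hcond : C₀ * a * n ≤ r ∧ C₀ * R ≤ r
    · have hr1 : 1 ≤ r := by
        have h1 : (1 : ℝ) ≤ C₀ * a * n := by
          have e1 : (1 : ℝ) ≤ a := by exact_mod_cast (by omega : 1 ≤ a)
          have e2 : (1 : ℝ) ≤ n := by exact_mod_cast hn1
          have e4 : (1 : ℝ) ≤ C₀ * a := by nlinarith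
          nlinarith
        exact_mod_cast h1.trans hcond.1
      obtain ⟨f1, f2⟩ := hc1' a q (2 ^ a) (b1.trans ha) hq le_rfl
      obtain ⟨f3, f4⟩ := hc1' a q R (b1.trans ha) hq hR
      set F1 := Fintype.piFinset (fun _ : Fin r => f1.toFinset) with hF1
      set F2 := Fintype.piFinset (fun _ : Fin r => f3.toFinset) with hF2
      have k1 : (F1.card : ℝ) ≤ ((2 : ℝ) ^ (4 * a * q)) ^ r := by
        rw [hF1, Fintype.card_piFinset_const, ← Set.ncard_eq_toFinset_card _ f1]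
        push_cast
        exact pow_le_pow_left₀ (Nat.cast_nonneg _) (by exact_mod_cast f2) r
      have k2 : (F2.card : ℝ) ≤ ((2 : ℝ) ^ (4 * a * q)) ^ r := by
        rw [hF2, Fintype.card_piFinset_const, ← Set.ncard_eq_toFinset_card _ f3]
        push_cast
        exact pow_le_pow_left₀ (Nat.cast_nonneg _) (by exact_mod_cast f4) r
      have hsub : Bd r R ⊆ ⋃ u ∈ F1, ⋃ d ∈ F2, E r R u d := by
        rintro x ⟨_, u, d, hx⟩
        simp only [Set.mem_iUnion]
        refine ⟨u, ?_, d, ?_, hx⟩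
        · rw [hF1, Fintype.mem_piFinset]
          intro t
          rw [Set.Finite.mem_toFinset]
          exact hx.1.1 t
        · rw [hF2, Fintype.mem_piFinset]
          intro t
          rw [Set.Finite.mem_toFinset]
          exact hx.1.2.1 t
      refine (measureReal_mono hsub (measure_ne_top _ _)).trans ((measureReal_biUnion_finset_le _ _).trans ?_)
      have k3 : ∀ u ∈ F1, (mu a n).real (⋃ d ∈ F2, E r R u d) ≤
          ((2 : ℝ) ^ (4 * a * q)) ^ r * Real.exp (-(c * r * n)) := by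
        intro u _
        refine (measureReal_biUnion_finset_le _ _).trans ?_
        refine (sum_le_card_nsmul _ _ _ fun d _ => hE1 r R hcond.2 u d).trans ?_
        rw [nsmul_eq_mul]
        exact mul_le_mul_of_nonneg_right k2 (Real.exp_pos _).le
      refine (sum_le_card_nsmul _ _ _ k3).trans ?_
      rw [nsmul_eq_mul]
      refine (mul_le_mul_of_nonneg_right k1 (by positivity)).trans ?_
      rw [← mul_assoc]
      exact expo hc0 b4' hq hr1 hρ hn
    · have : Bd r R = ∅ := Set.eq_empty_of_forall_notMem fun x hx => hcond hx.1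
      rw [this, measureReal_empty]
      positivity
  have hsub : {x | ¬ PLeak H ε C₀ a n q (Gx x)} ⊆
      ⋃ r ∈ range (2 ^ a + 1), ⋃ R ∈ range (2 ^ a + 1), Bd r R := by
    intro x hx
    have hx' : ¬ PLeak H ε C₀ a n q (Gx x) := hx
    unfold PLeak at hx'
    push Not at hx'
    obtain ⟨r, R, h1, h2, h3, u, d, h4, h5, h6, A, h7⟩ := hx'
    simp only [Set.mem_iUnion]
    refine ⟨r, mem_range.2 (by omega), R, ?_, ⟨h2, h3⟩, u, d, ⟨h4, h5, h6⟩, A, h7⟩
    rw [mem_range]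
    have : (R : ℝ) ≤ r := by
      have : (0 : ℝ) ≤ R := Nat.cast_nonneg _
      nlinarith
    have : R ≤ r := by exact_mod_cast this
    omega
  refine (measureReal_mono hsub (measure_ne_top _ _)).trans ((measureReal_biUnion_finset_le _ _).trans ?_)
  have k4 : ∀ r ∈ range (2 ^ a + 1), (mu a n).real (⋃ R ∈ range (2 ^ a + 1), Bd r R) ≤
      ((2 ^ a + 1 : ℕ) : ℝ) * Real.exp (-(4 * a)) := by
    intro r hr
    refine (measureReal_biUnion_finset_le _ _).trans ?_
    refine (sum_le_card_nsmul _ _ _ fun R hR => hBd1 r (by rw [mem_range] at hr; omega) R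
      (by rw [mem_range] at hR; omega)).trans ?_
    rw [nsmul_eq_mul, card_range]
  refine (sum_le_card_nsmul _ _ _ k4).trans ?_
  rw [nsmul_eq_mul, card_range]
  exact expo2 ha10

end Run7.h632.NEG
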